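import Mathlib

/-!
# The number one need not be a simple root of the Penrose polynomial of a connected binary matroid

The counterexample is the dual of the Fano matroid with one element replaced by three parallel
elements.
-/

namespace Pool.Agent.Results.MP_8c6d5c_co.TripledFanoDual

open Polynomial

section Definitions

variable {E : Type} [Fintype E] [DecidableEq E]

/-- The cocycle space of the binary matroid with cycle space `C`: the vectors orthogonal to all
cycles (subsets of `E` are written as vectors over the field with two elements). -/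
def cocycles (C : Submodule (ZMod 2) (E → ZMod 2)) : Submodule (ZMod 2) (E → ZMod 2) where
  carrier := {x | ∀ c ∈ C, ∑ e, x e * c e = 0}
  add_mem' := by
    intro x y hx hy c hc
    simp only [Pi.add_apply, add_mul, Finset.sum_add_distrib, hx c hc, hy c hc, add_zero]
  zero_mem' := by
    intro c _
    simp
  smul_mem' := by
    intro a x hx c hc
    simp only [Pi.smul_apply, smul_eq_mul, mul_assoc, ← Finset.mul_sum, hx c hc, mul_zero]

/-- The intersection of a vector with the set `A`. -/
def restr (A : Finset E) : (E → ZMod 2) →ₗ[ZMod 2] (E → ZMod 2) where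
  toFun x := fun e => if e ∈ A then x e else 0
  map_add' := by
    intro x y
    ext e
    by_cases h : e ∈ A <;> simp [h]
  map_smul' := by
    intro a x
    ext e
    by_cases h : e ∈ A <;> simp [h]

/-- The bicycle space of `A`: the cycles whose intersection with `A` is a cocycle. -/
def bicycles (C : Submodule (ZMod 2) (E → ZMod 2)) (A : Finset E) :
    Submodule (ZMod 2) (E → ZMod 2) :=
  C ⊓ (cocycles C).comap (restr A)

/-- The Penrose polynomial. -/
noncomputable def penrose (C : Submodule (ZMod 2) (E → ZMod 2)) : ℤ[X] :=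
  ∑ A : Finset E, (-1) ^ A.card * X ^ Module.finrank (ZMod 2) (bicycles C A)

/-- Connectivity: `E` is not empty and has no partition into two nonempty parts such that the
cycles are exactly the sums of a cycle inside the first part and a cycle inside the second part. -/
def Connected (C : Submodule (ZMod 2) (E → ZMod 2)) : Prop :=
  Nonempty E ∧ ¬ ∃ E₁ : Finset E, E₁.Nonempty ∧ E₁ᶜ.Nonempty ∧
    ∀ c : E → ZMod 2, c ∈ C ↔ ∃ c₁ ∈ C, ∃ c₂ ∈ C,
      (∀ e, e ∉ E₁ → c₁ e = 0) ∧ (∀ e, e ∈ E₁ → c₂ e = 0) ∧ c = c₁ + c₂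

end Definitions

/-- Five cycles which generate the cycle space; the element `e` is the bit `e`. -/
def gens : List ℕ := [15, 51, 85, 129, 257]

/-- All cycles. -/
def cyc : List ℕ := gens.foldl (fun l g => l ++ l.map (fun x => x ^^^ g)) [0]

/-- The parity of the number of bits. -/
def par (n : ℕ) : Bool := (27030 >>> ((n ^^^ (n >>> 4) ^^^ (n >>> 8)) &&& 15)).testBit 0

/-- The test for being in the bicycle space of the set with code `c`. -/
def ok (c n : ℕ) : Bool := gens.all fun m => !par (n &&& c &&& m)

/-- The number of elements of the bicycle space. -/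
def cnt (c : ℕ) : ℕ := (cyc.filter (ok c)).length

/-- The vector of a number. -/
def vec (n : ℕ) : Fin 9 → ZMod 2 := fun e => if n.testBit e then 1 else 0

/-- The number of a set. -/
def code (A : Finset (Fin 9)) : ℕ := ∑ e ∈ A, 2 ^ (e : ℕ)

/-- The table of the dimensions. -/
def tab (c : ℕ) : ℕ := (989350657717249155161849044317863652707451822330440082930659414567876274189982702233209364570214807751802762446298716474962814958986091230939220435661814854125438191252561506580879884712240770950519188222407204736023166590786349312742119613134419543610104702660783023422522209308467509903923167186188349504805891113780100042094616441752198007755663474589238352505841084263555487744642594110522674432681113375318291022958602409804399594220078384001762334696392485 >>> (3 * c)) &&& 7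

lemma cyc_nodup : cyc.Nodup := by decide +kernel

lemma cyc_lt : ∀ n ∈ cyc, n < 512 := by decide +kernel

lemma gens_sub : ∀ n ∈ gens, n ∈ cyc := by decide +kernel

lemma zero_mem : 0 ∈ cyc := by decide +kernel

lemma xor_mem : ∀ a ∈ cyc, ∀ b ∈ cyc, a ^^^ b ∈ cyc := by decide +kernel

lemma sum_par : ∀ n < 512, (∑ e : Fin 9, if n.testBit (e : ℕ) then (1 : ZMod 2) else 0)
    = if par n then 1 else 0 := by decide +kernel

lemma ok_all : ∀ k < 512, (∀ m ∈ gens, par (k &&& m) = false) →
    ∀ m ∈ cyc, par (k &&& m) = false := by decide +kernel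

lemma tab_spec : ∀ c < 512, cnt c = 2 ^ tab c := by decide +kernel

lemma conn_check : ∀ s < 512, s ≠ 0 → s ≠ 511 → ∃ g ∈ gens, g &&& s ∉ cyc := by decide +kernel

lemma testBit_code : ∀ A : Finset (Fin 9), ∀ e : Fin 9, (code A).testBit e = decide (e ∈ A) := by
  decide +kernel

lemma code_lt : ∀ A : Finset (Fin 9), code A < 512 := by decide +kernel

lemma tab_lt : ∀ A : Finset (Fin 9), tab (code A) < 6 := by decide +kernel

lemma sums : ∀ d : Fin 6, ((Finset.univ.filter fun A : Finset (Fin 9) => tab (code A) = d).sum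
    fun A => (-1 : ℤ) ^ A.card) = ![-8, 28, -38, 25, -8, 1] d := by decide +kernel


lemma vec_xor (a b : ℕ) : vec (a ^^^ b) = vec a + vec b := by
  ext e
  simp only [vec, Pi.add_apply, Nat.testBit_xor]
  cases a.testBit e <;> cases b.testBit e <;> decide

lemma vec_inj {a b : ℕ} (ha : a < 512) (hb : b < 512) (h : vec a = vec b) : a = b := by
  apply Nat.eq_of_testBit_eq
  intro i
  by_cases hi : i < 9
  · have h1 := congrFun h ⟨i, hi⟩
    simp only [vec] at h1
    cases h2 : a.testBit i <;> cases h3 : b.testBit i <;> simp [h2, h3] at h1 ⊢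
  · have h9 : (2 : ℕ) ^ 9 ≤ 2 ^ i := Nat.pow_le_pow_right (by norm_num) (by omega)
    rw [Nat.testBit_lt_two_pow (by omega), Nat.testBit_lt_two_pow (by omega)]

lemma vec_zero : vec 0 = 0 := by
  ext e
  simp [vec]

/-- The cycle space. -/
def cycSpace : Submodule (ZMod 2) (Fin 9 → ZMod 2) where
  carrier := {x | ∃ n ∈ cyc, vec n = x}
  add_mem' := by
    rintro x y ⟨a, ha, rfl⟩ ⟨b, hb, rfl⟩
    exact ⟨a ^^^ b, xor_mem a ha b hb, vec_xor a b⟩
  zero_mem' := ⟨0, zero_mem, vec_zero⟩
  smul_mem' := by
    rintro c x ⟨a, ha, rfl⟩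
    fin_cases c
    · exact ⟨0, zero_mem, by rw [vec_zero]; exact (zero_smul (ZMod 2) (vec a)).symm⟩
    · exact ⟨a, ha, (one_smul (ZMod 2) (vec a)).symm⟩

lemma mem_cycSpace {x : Fin 9 → ZMod 2} : x ∈ cycSpace ↔ ∃ n ∈ cyc, vec n = x := Iff.rfl

lemma pairing (A : Finset (Fin 9)) (a b : ℕ) (hb : b < 512) :
    ∑ e, restr A (vec a) e * vec b e = if par (a &&& code A &&& b) then 1 else 0 := by
  rw [← sum_par _ (Nat.and_lt_two_pow _ (show b < 2 ^ 9 by omega))]
  apply Finset.sum_congr rfl
  intro e _
  simp only [restr, vec, LinearMap.coe_mk, AddHom.coe_mk, Nat.testBit_and, testBit_code]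
  by_cases h : e ∈ A <;> cases a.testBit e <;> cases b.testBit e <;> simp [h]

lemma mem_bicycles (A : Finset (Fin 9)) (x : Fin 9 → ZMod 2) :
    x ∈ bicycles cycSpace A ↔ ∃ n ∈ cyc.filter (ok (code A)), vec n = x := by
  constructor
  · rintro ⟨⟨n, hn, rfl⟩, h⟩
    refine ⟨n, List.mem_filter.2 ⟨hn, ?_⟩, rfl⟩
    simp only [ok, List.all_eq_true, Bool.not_eq_true']
    intro m hm
    have h1 : ∑ e, restr A (vec n) e * vec m e = 0 := h (vec m) ⟨m, gens_sub m hm, rfl⟩
    rw [pairing A n m (cyc_lt m (gens_sub m hm))] at h1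
    by_contra h2
    rw [Bool.not_eq_false] at h2
    simp [h2] at h1
  · rintro ⟨n, hn, rfl⟩
    rw [List.mem_filter] at hn
    refine ⟨⟨n, hn.1, rfl⟩, ?_⟩
    rintro c ⟨m, hm, rfl⟩
    rw [pairing A n m (cyc_lt m hm)]
    have h1 := hn.2
    simp only [ok, List.all_eq_true, Bool.not_eq_true'] at h1
    rw [ok_all _ (Nat.and_lt_two_pow _ (show code A < 2 ^ 9 from code_lt A)) h1 m hm]
    simp

lemma card_bicycles (A : Finset (Fin 9)) : Nat.card (bicycles cycSpace A) = cnt (code A) := by
  have h1 : (bicycles cycSpace A : Set (Fin 9 → ZMod 2))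
      = vec '' ((cyc.filter (ok (code A))).toFinset : Set ℕ) := by
    ext x
    rw [SetLike.mem_coe, mem_bicycles]
    simp [Set.mem_image]
  have h2 : Nat.card (bicycles cycSpace A) = (bicycles cycSpace A : Set (Fin 9 → ZMod 2)).ncard :=
    rfl
  rw [h2, h1, Set.InjOn.ncard_image]
  · rw [cnt, ← List.toFinset_card_of_nodup (cyc_nodup.filter _)]
    exact Set.ncard_coe_finset _
  · intro a ha b hb hab
    have ha' : a ∈ cyc := by
      simp only [Finset.mem_coe, List.mem_toFinset, List.mem_filter] at ha
      exact ha.1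
    have hb' : b ∈ cyc := by
      simp only [Finset.mem_coe, List.mem_toFinset, List.mem_filter] at hb
      exact hb.1
    exact vec_inj (cyc_lt a ha') (cyc_lt b hb') hab

lemma finrank_bicycles (A : Finset (Fin 9)) :
    Module.finrank (ZMod 2) (bicycles cycSpace A) = tab (code A) := by
  have h1 := Module.natCard_eq_pow_finrank (K := ZMod 2) (V := bicycles cycSpace A)
  rw [card_bicycles, tab_spec _ (code_lt A), Nat.card_zmod] at h1
  exact (Nat.pow_right_injective (le_refl 2) h1).symm

lemma penrose_eq : penrose cycSpace = (X - 1) ^ 2 * (X - 2) ^ 3 := by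
  have h1 : penrose cycSpace = ∑ A : Finset (Fin 9), (-1) ^ A.card * X ^ tab (code A) := by
    unfold penrose
    apply Finset.sum_congr rfl
    intro A _
    rw [finrank_bicycles]
  have h2 : ∀ A ∈ (Finset.univ : Finset (Finset (Fin 9))),
      tab (code A) ∈ Finset.range 6 := fun A _ => Finset.mem_range.2 (tab_lt A)
  have h3 : ∀ d : Fin 6, (∑ A ∈ Finset.univ.filter (fun A : Finset (Fin 9) => tab (code A) = d),
      ((-1) ^ A.card * X ^ tab (code A) : ℤ[X])) = C ((![-8, 28, -38, 25, -8, 1] : Fin 6 → ℤ) d)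
        * X ^ (d : ℕ) := by
    intro d
    rw [← sums d, map_sum, Finset.sum_mul]
    apply Finset.sum_congr rfl
    intro A hA
    rw [Finset.mem_filter] at hA
    rw [hA.2]
    simp
  rw [h1, ← Finset.sum_fiberwise_of_maps_to h2, Finset.sum_range]
  rw [Finset.sum_congr rfl (fun d _ => h3 d)]
  simp only [Fin.sum_univ_succ, Fin.sum_univ_zero]
  simp
  ring

lemma connected_cycSpace : Connected cycSpace := by
  refine ⟨⟨0⟩, ?_⟩
  rintro ⟨E₁, ⟨a, ha⟩, ⟨b, hb⟩, h⟩
  have h0 : code E₁ ≠ 0 := by
    intro h0
    have h1 := testBit_code E₁ a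
    rw [h0] at h1
    simp [ha] at h1
  have h511 : code E₁ ≠ 511 := by
    intro h0
    have h1 := testBit_code E₁ b
    rw [h0, decide_eq_false (Finset.mem_compl.1 hb)] at h1
    revert h1
    clear hb
    revert b
    decide
  obtain ⟨g, hg, hgs⟩ := conn_check _ (code_lt E₁) h0 h511
  obtain ⟨c₁, hc₁, c₂, hc₂, h1, h2, h3⟩ := (h (vec g)).1 ⟨g, gens_sub g hg, rfl⟩
  obtain ⟨n, hn, rfl⟩ := hc₁
  apply hgs
  have : n = g &&& code E₁ := by
    apply vec_inj (cyc_lt n hn) (Nat.and_lt_two_pow _ (show code E₁ < 2 ^ 9 from code_lt E₁))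
    ext e
    by_cases he : e ∈ E₁
    · have h4 := congrFun h3 e
      rw [Pi.add_apply, h2 e he, add_zero] at h4
      rw [← h4]
      simp [vec, Nat.testBit_and, testBit_code, he]
    · rw [h1 e he]
      simp [vec, Nat.testBit_and, testBit_code, he]
  rw [← this]
  exact hn

/-- There is a connected binary matroid whose Penrose polynomial is not zero and is divisible by
the square of `X - 1`. -/
theorem result : ∃ 𝒞 : Submodule (ZMod 2) (Fin 9 → ZMod 2),
    Connected 𝒞 ∧ penrose 𝒞 ≠ 0 ∧ (X - 1) ^ 2 ∣ penrose 𝒞 := by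
  refine ⟨cycSpace, connected_cycSpace, ?_, ?_⟩
  · rw [penrose_eq]
    intro h
    have := congrArg (Polynomial.eval 0) h
    simp at this
  · rw [penrose_eq]
    exact Dvd.intro _ rfl

end Pool.Agent.Results.MP_8c6d5c_co.TripledFanoDual
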